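import Pool.Agent.L0h94.SP.StmE
import Pool.Agent.N99.PF.Main

set_option autoImplicit false
set_option linter.all false

/-!
# SP/MNS: a positive proportion, from the parts

Adapted from `Pool/Agent/N99/PF/Main.lean`.
-/

open Polynomial NumberField
open scoped Classical

namespace Pool.Agent.L0h22.SP

open Pool.Agent.N783.PF Pool.Agent.L0h94.SP
open Pool.Agent.N352.PJ (dd)
open Pool.Agent.N99.PF (card_fib ht_card ht_scale scale_inj)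

theorem t_MNS (h0 : S_PTS) (h1 : S_CNT) (h2 : S_COR) : S_MNS := by
  intro F _ _ a
  obtain ⟨M, κ0, K0, κf, hM, hcor⟩ := h2 F a
  obtain ⟨W, f₁, T, 𝔮, r, P, hKW, hf₁, hBlk, hTne, c, hc, B₀, hcnt⟩ := h1 F M κ0 K0 κf hM
  obtain ⟨-, Cp, hCp, -, hpt⟩ := h0 F
  set D : ℕ := Module.finrank ℚ F * dd 1 with hD
  have hS := hBlk.good
  set S : Finset ℕ := sup T M with hSdef
  set Q : ℕ := ∏ q ∈ S, q with hQ
  have hq1 : ∀ q ∈ S, 1 ≤ q := fun q hq => (hS q hq).1.pos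
  have hQ1 : 1 ≤ Q := Finset.one_le_prod' hq1
  have hQ0 : (0 : ℝ) < Q := by exact_mod_cast hQ1
  set X₀ : ℕ := max B₀ 1 with hX₀
  refine ⟨c / (2 ^ S.card * ((2 * Cp) ^ (2 * 1) * (2 * Q) ^ D)), by positivity, X₀ * Q,
    fun B hB => ?_⟩
  set B₁ : ℕ := B / Q with hB₁
  have hBX : X₀ ≤ B₁ := (Nat.le_div_iff_mul_le hQ1).2 hB
  have hb1 : 1 ≤ B₁ := (le_max_right _ _).trans hBX
  have hb2 : B₀ ≤ B₁ := (le_max_left _ _).trans hBX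
  have hBQ : B₁ * Q ≤ B := Nat.div_mul_le_self B Q
  have hBQ2 : B ≤ 2 * Q * B₁ := by
    have e1 : B < B₁ * Q + Q := Nat.lt_div_mul_add (a := B) (b := Q) hQ1
    nlinarith
  have hB1 : 1 ≤ B := le_trans (by nlinarith) hBQ
  refine ⟨(ht_card hCp hpt 1 B hB1).1, ?_⟩
  set H := {f : (𝓞 F)[X] | Ht 1 B f ∧ Irreducible (fF f) ∧ SelN f (2 ^ a) ∧ Min 1 f} with hH
  set G := {f : (𝓞 F)[X] | GF B₁ W M κ0 κf f₁ T 𝔮 P f} with hGdef
  have hHf : H.Finite := (ht_card hCp hpt 1 B hB1).1.subset fun f hf => hf.1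
  have hGf : G.Finite := (ht_card hCp hpt 1 B₁ hb1).1.subset fun f hf => hf.fam.ht
  have hG : c * (B₁ : ℝ) ^ D ≤ (G.ncard : ℝ) := hcnt B₁ hb2
  have hJ0 : ∀ J ⊆ S, ((Dp J : ℕ) : 𝓞 F) ≠ 0 := by
    intro J hJ
    have : 0 < ∏ q ∈ J, q := Finset.prod_pos fun q hq => hq1 q (hJ hq)
    have h5 : (Dp J : ℕ) ≠ 0 := this.ne'
    exact_mod_cast h5
  have hcard1 := card_fib hGf hHf S (fun J f => f.scaleRoots ((Dp J : ℕ) : 𝓞 F)) (by
      intro f hf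
      obtain ⟨J, hJ, hirr, hsel, hmin⟩ := hcor f f₁ B₁ W T 𝔮 r P hKW hf₁ hBlk hTne hf hb1
      have hDle : Dp J ≤ Q :=
        Finset.prod_le_prod_of_subset_of_one_le' hJ fun q hq _ => hq1 q hq
      exact ⟨J, hJ, ht_scale hf.fam.ht ((Nat.mul_le_mul_left _ hDle).trans hBQ), hirr, hsel,
        hmin⟩) (by
      intro J hJ x hx y hy hxy
      exact scale_inj (hJ0 J hJ) (by rw [hx.fam.ht.deg, hy.fam.ht.deg]) hxy)
  have hcard' : (G.ncard : ℝ) ≤ 2 ^ S.card * H.ncard := by exact_mod_cast hcard1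
  have hM' : ({f : (𝓞 F)[X] | Ht 1 B f}.ncard : ℝ) ≤
      (2 * Cp) ^ (2 * 1) * (2 * Q) ^ D * (B₁ : ℝ) ^ D := by
    have e1 : ({f : (𝓞 F)[X] | Ht 1 B f}.ncard : ℝ) ≤ (2 * Cp) ^ (2 * 1) * (B : ℝ) ^ D :=
      (ht_card hCp hpt 1 B hB1).2
    refine e1.trans ?_
    rw [mul_assoc, ← mul_pow]
    have e2 : (B : ℝ) ≤ 2 * Q * B₁ := by exact_mod_cast hBQ2
    gcongr
  calc c / (2 ^ S.card * ((2 * Cp) ^ (2 * 1) * (2 * Q) ^ D)) *
        ({f : (𝓞 F)[X] | Ht 1 B f}.ncard : ℝ)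
      ≤ c / (2 ^ S.card * ((2 * Cp) ^ (2 * 1) * (2 * Q) ^ D)) *
        ((2 * Cp) ^ (2 * 1) * (2 * Q) ^ D * (B₁ : ℝ) ^ D) :=
        mul_le_mul_of_nonneg_left hM' (by positivity)
    _ = c * (B₁ : ℝ) ^ D / 2 ^ S.card := by
        field_simp
    _ ≤ (G.ncard : ℝ) / 2 ^ S.card := by gcongr
    _ ≤ (2 ^ S.card * H.ncard) / 2 ^ S.card := by gcongr
    _ = H.ncard := by field_simp

end Pool.Agent.L0h22.SP
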